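import Pool.Agent.Helper80_TWC.Stmts
import Pool.Agent.Helper11_SEP.Kan

/-! KPM: complete bipartite graphs. -/

set_option autoImplicit false

open SimpleGraph

namespace Pool.Agent.TWC80.H91

open Pool.Agent.RS80 Pool.Agent.RS81 Pool.Agent.SEP60 Pool.Agent.TWC80

theorem kpm : KpmStmt := by
  classical
  intro V _ B κ c a hB h1 hc hc'
  obtain ⟨u, hu⟩ : ∃ u, κ u = c := by
    have : 0 < {v | κ v = c}.ncard := by omega
    obtain ⟨u, hu⟩ := (Set.ncard_pos (Set.toFinite _)).mp this
    exact ⟨u, hu⟩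
  subst hu
  refine ⟨fun N => Pool.Agent.SEP60.H11.free_small hB h1 u a N (by omega) (by omega), ?_⟩
  have := Fintype.ofFinite V
  obtain ⟨f, hf⟩ := Pool.Agent.SEP60.H11.exists_inj {v | κ v = κ u}
    (Set.univ : Set (Fin (a + 1))) (by
      rw [hc, Set.ncard_univ, Nat.card_eq_fintype_card, Fintype.card_fin])
  let g : V ≃ Fin (Nat.card V) := Finite.equivFin V
  let F : V → Fin (a + 1) ⊕ Fin (Nat.card V) := fun v =>
    if h : κ v = κ u then Sum.inl (f ⟨v, h⟩).1 else Sum.inr (g v)
  have F1 : ∀ v (h : κ v = κ u), F v = Sum.inl (f ⟨v, h⟩).1 := fun v h => dif_pos h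
  have F2 : ∀ v (_ : ¬ κ v = κ u), F v = Sum.inr (g v) := fun v h => dif_neg h
  refine ⟨⟨F, ?_⟩, ?_⟩
  · intro x y hxy
    have hne := h1 x y hxy
    by_cases hx : κ x = κ u
    · have hy : ¬ κ y = κ u := fun h => hne (hx.trans h.symm)
      rw [F1 x hx, F2 y hy]
      simp [completeBipartiteGraph]
    · have hy : κ y = κ u := by
        have : ∀ p q r : Bool, p ≠ q → ¬ p = r → q = r := by decide
        exact this _ _ _ hne hx
      rw [F2 x hx, F1 y hy]
      simp [completeBipartiteGraph]
  · intro x y hxy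
    have hxy' : F x = F y := hxy
    by_cases hx : κ x = κ u
    · by_cases hy : κ y = κ u
      · rw [F1 x hx, F1 y hy] at hxy'
        have h2 := hf (Subtype.ext (Sum.inl.inj hxy'))
        exact congrArg Subtype.val h2
      · rw [F1 x hx, F2 y hy] at hxy'
        exact absurd hxy' (by simp)
    · by_cases hy : κ y = κ u
      · rw [F2 x hx, F1 y hy] at hxy'
        exact absurd hxy' (by simp)
      · rw [F2 x hx, F2 y hy] at hxy'
        exact g.injective (Sum.inr.inj hxy')

end Pool.Agent.TWC80.H91
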