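import Pool.Agent.Helper80_TWC.Stmts
import Pool.Agent.Helper11_SEP.Kan

/-! MIX: a graph with a cut of two vertices on opposite sides embeds in `MixHost`. -/

set_option autoImplicit false

open SimpleGraph

namespace Pool.Agent.TWC80.H91

open Pool.Agent.RS80 Pool.Agent.RS81 Pool.Agent.SEP60 Pool.Agent.TWC80

/-- the two parts of a graph with a cut of two vertices -/
theorem exists_parts {V : Type} {B : SimpleGraph V} {x₀ y₀ : V}
    (h : ¬ (B.induce {x₀, y₀}ᶜ).Preconnected) :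
    ∃ β : V → Bool, (∀ u v, B.Adj u v → u ≠ x₀ → u ≠ y₀ → v ≠ x₀ → v ≠ y₀ → β u = β v) ∧
      ∀ b, ∃ v, v ≠ x₀ ∧ v ≠ y₀ ∧ β v = b := by
  classical
  unfold SimpleGraph.Preconnected at h
  push Not at h
  obtain ⟨⟨u, hu⟩, ⟨v, hv⟩, huv⟩ := h
  have hmem : ∀ z : V, z ∈ ({x₀, y₀}ᶜ : Set V) ↔ z ≠ x₀ ∧ z ≠ y₀ := by
    intro z
    simp
  refine ⟨fun z => decide (∃ hz : z ∈ ({x₀, y₀}ᶜ : Set V),
    (B.induce {x₀, y₀}ᶜ).Reachable ⟨u, hu⟩ ⟨z, hz⟩), ?_, ?_⟩
  · intro a b hab ha1 ha2 hb1 hb2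
    have ha : a ∈ ({x₀, y₀}ᶜ : Set V) := (hmem a).mpr ⟨ha1, ha2⟩
    have hb : b ∈ ({x₀, y₀}ᶜ : Set V) := (hmem b).mpr ⟨hb1, hb2⟩
    have hadj : (B.induce {x₀, y₀}ᶜ).Adj ⟨a, ha⟩ ⟨b, hb⟩ := hab
    apply decide_eq_decide.mpr
    constructor
    · rintro ⟨_, h2⟩
      exact ⟨hb, h2.trans hadj.reachable⟩
    · rintro ⟨_, h2⟩
      exact ⟨ha, h2.trans hadj.symm.reachable⟩
  · intro b
    cases b with
    | true =>
      refine ⟨u, ((hmem u).mp hu).1, ((hmem u).mp hu).2, ?_⟩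
      exact decide_eq_true ⟨hu, Reachable.refl _⟩
    | false =>
      refine ⟨v, ((hmem v).mp hv).1, ((hmem v).mp hv).2, ?_⟩
      apply decide_eq_false
      rintro ⟨_, h2⟩
      exact huv h2

/-- a set between two sets with a given number of elements -/
theorem exists_between {V : Type} [Finite V] (A C : Set V) (m : ℕ) (hAC : A ⊆ C)
    (h1 : A.ncard ≤ m) (h2 : m ≤ C.ncard) : ∃ W : Set V, A ⊆ W ∧ W ⊆ C ∧ W.ncard = m := by
  obtain ⟨W, hA, hC, hW⟩ := Set.exists_subsuperset_card_eq hAC h1 h2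
  exact ⟨W, hA, hC, hW⟩

theorem mix : MixStmt := by
  classical
  intro V _ B κ hB hκ x₀ y₀ hxy hcut i j hi hj hcard
  obtain ⟨β, hβ, hne⟩ := exists_parts hcut
  -- both parts contain a vertex of the class of `x₀`
  have hP : ∀ b, ∃ u, κ u = κ x₀ ∧ u ≠ x₀ ∧ β u = b := by
    intro b
    obtain ⟨v, hv1, hv2, hv3⟩ := hne b
    by_cases hv : κ v = κ x₀
    · exact ⟨v, hv, hv1, hv3⟩
    · obtain ⟨u, hu1, hu2⟩ := hB.exists_adj_ne v x₀
      have hku : κ u = κ x₀ := by
        have := hκ _ _ hu2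
        have h3 : ∀ p q r : Bool, p ≠ q → ¬ p = r → q = r := by decide
        exact h3 _ _ _ this hv
      have huy : u ≠ y₀ := by
        rintro rfl
        exact hxy hku.symm
      exact ⟨u, hku, hu1, (hβ v u hu2 hv1 hv2 hu1 huy).symm.trans hv3⟩
  obtain ⟨u₁, hu1, hu1x, hu1b⟩ := hP true
  obtain ⟨u₂, hu2, hu2x, hu2b⟩ := hP false
  have hu12 : u₁ ≠ u₂ := by
    rintro rfl
    rw [hu1b] at hu2b
    exact absurd hu2b (by decide)
  -- the hubs
  obtain ⟨W, hxW, hWC, hWc⟩ := exists_between ({x₀} : Set V) ({v | κ v = κ x₀} \ {u₁, u₂}) i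
    (by
      rintro _ rfl
      refine ⟨rfl, ?_⟩
      simp only [Set.mem_insert_iff, Set.mem_singleton_iff, not_or]
      exact ⟨hu1x.symm, hu2x.symm⟩)
    (by rw [Set.ncard_singleton]; exact hi)
    (by
      have hsub : ({u₁, u₂} : Set V) ⊆ {v | κ v = κ x₀} := by
        rintro z (rfl | hz)
        · exact hu1
        · have : z = u₂ := hz
          rw [this]
          exact hu2
      have h3 := Set.ncard_sdiff_add_ncard_of_subset hsub (Set.toFinite _)
      rw [Set.ncard_pair hu12, hcard] at h3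
      omega)
  have hWP : ∀ w ∈ W, κ w = κ x₀ := fun w hw => (hWC hw).1
  have hWu1 : u₁ ∉ W := fun h => (hWC h).2 (by simp)
  have hWu2 : u₂ ∉ W := fun h => (hWC h).2 (by simp)
  have hx₀ : x₀ ∈ W := hxW rfl
  -- the groups
  have hX : ∀ b, ({v | κ v = κ x₀ ∧ v ∉ W ∧ β v = b} : Set V).ncard ≤ j := by
    intro b
    have hrest : ({v | κ v = κ x₀} \ W : Set V).ncard = j + 1 := by
      have h3 := Set.ncard_sdiff_add_ncard_of_subset (s := W) (t := {v | κ v = κ x₀})
        (fun w hw => hWP w hw) (Set.toFinite _)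
      rw [hWc, hcard] at h3
      omega
    obtain ⟨u, huP, huW, hub⟩ : ∃ u, κ u = κ x₀ ∧ u ∉ W ∧ β u ≠ b := by
      cases b with
      | true => exact ⟨u₂, hu2, hWu2, by rw [hu2b]; decide⟩
      | false => exact ⟨u₁, hu1, hWu1, by rw [hu1b]; decide⟩
    have hss : ({v | κ v = κ x₀ ∧ v ∉ W ∧ β v = b} : Set V) ⊂ {v | κ v = κ x₀} \ W := by
      refine (Set.ssubset_iff_of_subset ?_).mpr ⟨u, ⟨huP, huW⟩, ?_⟩
      · rintro v ⟨h1, h2, _⟩
        exact ⟨h1, h2⟩
      · rintro ⟨_, _, h⟩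
        exact hub h
    have := Set.ncard_lt_ncard hss (Set.toFinite _)
    omega
  have := Fintype.ofFinite V
  obtain ⟨fW, hfW⟩ := Pool.Agent.SEP60.H11.exists_inj W (Set.univ : Set (Fin i)) (by
      rw [hWc, Set.ncard_univ, Nat.card_eq_fintype_card, Fintype.card_fin])
  have hfX : ∀ b, ∃ f : ({v | κ v = κ x₀ ∧ v ∉ W ∧ β v = b} : Set V) →
      (Set.univ : Set (Fin j)), Function.Injective f := fun b =>
    Pool.Agent.SEP60.H11.exists_inj _ _ (by
      rw [Set.ncard_univ, Nat.card_eq_fintype_card, Fintype.card_fin]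
      exact hX b)
  choose fX hfX using hfX
  let g : V ≃ Fin (Nat.card V) := Finite.equivFin V
  let F : V → (Fin i ⊕ (Bool × Fin j)) ⊕ ((Bool × Fin (Nat.card V)) ⊕ Unit) := fun v =>
    if h : v ∈ W then Sum.inl (Sum.inl (fW ⟨v, h⟩).1) else
    if h' : κ v = κ x₀ then Sum.inl (Sum.inr (β v, (fX (β v) ⟨v, h', h, rfl⟩).1)) else
    if v = y₀ then Sum.inr (Sum.inr ()) else Sum.inr (Sum.inl (β v, g v))
  have F1 : ∀ v (h : v ∈ W), F v = Sum.inl (Sum.inl (fW ⟨v, h⟩).1) := fun v h => dif_pos h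
  have F2 : ∀ v (h : v ∉ W) (h' : κ v = κ x₀),
      F v = Sum.inl (Sum.inr (β v, (fX (β v) ⟨v, h', h, rfl⟩).1)) := fun v h h' => by
    show dite _ _ _ = _
    rw [dif_neg h, dif_pos h']
  have F3 : F y₀ = Sum.inr (Sum.inr ()) := by
    show dite _ _ _ = _
    rw [dif_neg (fun h => hxy (hWP y₀ h).symm), dif_neg (fun h => hxy h.symm), if_pos rfl]
  have F4 : ∀ v, κ v ≠ κ x₀ → v ≠ y₀ → F v = Sum.inr (Sum.inl (β v, g v)) := fun v h h' => by
    show dite _ _ _ = _
    rw [dif_neg (fun h2 => h (hWP v h2)), dif_neg h, if_neg h']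
  have hR : ∀ v, κ v ≠ κ x₀ → ∃ z, F v = Sum.inr z := by
    intro v hv
    by_cases hy : v = y₀
    · subst hy
      exact ⟨_, F3⟩
    · exact ⟨_, F4 v hv hy⟩
  have hL : ∀ v, κ v = κ x₀ → ∃ z, F v = Sum.inl z := by
    intro v hv
    by_cases hw : v ∈ W
    · exact ⟨_, F1 v hw⟩
    · exact ⟨_, F2 v hw hv⟩
  -- the edges
  have hadj : ∀ x y, B.Adj x y → κ x = κ x₀ → (MixHost i j (Nat.card V)).Adj (F x) (F y) := by
    intro x y hxy' hx
    have hy : κ y ≠ κ x₀ := fun h => hκ _ _ hxy' (hx.trans h.symm)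
    by_cases hw : x ∈ W
    · obtain ⟨z, hz⟩ := hR y hy
      rw [F1 x hw, hz]
      unfold MixHost
      rw [fromRel_adj]
      exact ⟨by simp, Or.inl (Or.inl ⟨_, _, rfl, rfl⟩)⟩
    · by_cases hyy : y = y₀
      · subst hyy
        rw [F2 x hw hx, F3]
        unfold MixHost
        rw [fromRel_adj]
        exact ⟨by simp, Or.inl (Or.inr (Or.inr ⟨_, _, rfl, rfl⟩))⟩
      · have hxx : x ≠ x₀ := by
          rintro rfl
          exact hw hx₀
        have hxy₀ : x ≠ y₀ := by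
          rintro rfl
          exact hxy hx.symm
        have hyx₀ : y ≠ x₀ := by
          rintro rfl
          exact hy rfl
        have hb : β x = β y := hβ x y hxy' hxx hxy₀ hyx₀ hyy
        rw [F2 x hw hx, F4 y hy hyy]
        unfold MixHost
        rw [fromRel_adj]
        refine ⟨by simp, Or.inl (Or.inr (Or.inl ⟨β x, _, g y, rfl, ?_⟩))⟩
        rw [hb]
  refine ⟨⟨F, ?_⟩, ?_⟩
  · intro x y hxy'
    by_cases hx : κ x = κ x₀
    · exact hadj x y hxy' hx
    · have hy : κ y = κ x₀ := by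
        have h3 : ∀ p q r : Bool, p ≠ q → ¬ p = r → q = r := by decide
        exact h3 _ _ _ (hκ _ _ hxy') hx
      exact (hadj y x hxy'.symm hy).symm
  · intro x y hxy'
    have hF : F x = F y := hxy'
    by_cases hx : κ x = κ x₀
    · by_cases hy : κ y = κ x₀
      · by_cases hwx : x ∈ W
        · by_cases hwy : y ∈ W
          · rw [F1 x hwx, F1 y hwy] at hF
            have h2 := hfW (Subtype.ext (Sum.inl.inj (Sum.inl.inj hF)))
            exact congrArg Subtype.val h2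
          · rw [F1 x hwx, F2 y hwy hy] at hF
            exact absurd (Sum.inl.inj hF) (by simp)
        · by_cases hwy : y ∈ W
          · rw [F2 x hwx hx, F1 y hwy] at hF
            exact absurd (Sum.inl.inj hF) (by simp)
          · rw [F2 x hwx hx, F2 y hwy hy] at hF
            have h2 := Prod.mk.inj (Sum.inr.inj (Sum.inl.inj hF))
            have h3 : ∀ (b b' : Bool) (hb : b = b')
                (z : ({v | κ v = κ x₀ ∧ v ∉ W ∧ β v = b} : Set V))
                (z' : ({v | κ v = κ x₀ ∧ v ∉ W ∧ β v = b'} : Set V)),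
                (fX b z).1 = (fX b' z').1 → z.1 = z'.1 := by
              intro b b' hb z z' h
              subst hb
              exact congrArg Subtype.val (hfX b (Subtype.ext h))
            exact h3 _ _ h2.1 _ _ h2.2
      · obtain ⟨z, hz⟩ := hL x hx
        obtain ⟨z', hz'⟩ := hR y hy
        rw [hz, hz'] at hF
        exact absurd hF (by simp)
    · by_cases hy : κ y = κ x₀
      · obtain ⟨z, hz⟩ := hR x hx
        obtain ⟨z', hz'⟩ := hL y hy
        rw [hz, hz'] at hF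
        exact absurd hF (by simp)
      · by_cases hxx : x = y₀
        · by_cases hyy : y = y₀
          · exact hxx.trans hyy.symm
          · rw [hxx, F3, F4 y hy hyy] at hF
            exact absurd (Sum.inr.inj hF) (by simp)
        · by_cases hyy : y = y₀
          · rw [hyy, F3, F4 x hx hxx] at hF
            exact absurd (Sum.inr.inj hF) (by simp)
          · rw [F4 x hx hxx, F4 y hy hyy] at hF
            exact g.injective (Prod.mk.inj (Sum.inl.inj (Sum.inr.inj hF))).2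

end Pool.Agent.TWC80.H91
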